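import Pool.Agent.X199.DiscProd

/-!
# Products with compact spaces detect the Lindelöf property
-/

set_option autoImplicit false

open Set Topology

universe u

namespace Pool.Agent.Results.MP_0abb29_gt.LindelofIffAllProducts

/-- For every `T₁` space `X`: the products `X × K` with all compact Hausdorff spaces `K` are
discretely Lindelöf if and only if `X` is Lindelöf. -/
theorem result (X : Type u) [TopologicalSpace X] [T1Space X] :
    (∀ (K : Type u) [TopologicalSpace K] [CompactSpace K] [T2Space K] (D : Set (X × K)),
      DiscreteTopology D → LindelofSpace (closure D)) ↔ LindelofSpace X := by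
  constructor
  · intro h
    exact Pool.Agent.X199.lindelof_of_prod fun D hD => h _ D hD
  · intro hX K _ _ _ D _
    have h1 : IsLindelof (univ : Set (X × K)) := by
      intro f _ _ _
      obtain ⟨x, -, hx⟩ := hX.isLindelof_univ (f := Filter.map Prod.fst f) (by simp)
      obtain ⟨p, -, hp⟩ :=
        (isProperMap_fst_of_compactSpace (X := X) (Y := K)).clusterPt_of_mapClusterPt hx
      exact ⟨p, mem_univ p, hp⟩
    rw [← isLindelof_iff_lindelofSpace]
    exact h1.of_isClosed_subset isClosed_closure (subset_univ _)

end Pool.Agent.Results.MP_0abb29_gt.LindelofIffAllProducts
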