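import Pool.Agent.H960R3.DL3
import Pool.Agent.X199.DiscProd

/-!
# A discretely Lindelöf space whose product with a compact space is not discretely Lindelöf
-/

set_option autoImplicit false

open Set Topology

namespace Pool.Agent.Results.MP_0abb29_gt.ProductNotDiscretelyLindelof

/-- There are a `T₁` discretely Lindelöf space `X`, a compact Hausdorff space `K` and a discrete
subset `D` of `X × K` whose closure in `X × K` is not Lindelöf. -/
theorem result :
    ∃ (X : Type) (_ : TopologicalSpace X) (K : Type) (_ : TopologicalSpace K),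
      T1Space X ∧ (∀ D : Set X, DiscreteTopology D → LindelofSpace (closure D)) ∧
      CompactSpace K ∧ T2Space K ∧
      ∃ D : Set (X × K), DiscreteTopology D ∧ ¬ LindelofSpace (closure D) := by
  obtain ⟨X, i, hT1, hDL, 𝒰, hUo, hUc, hUd⟩ := Pool.Agent.H960R3.DL.exists_space
  refine ⟨X, i, OnePoint (Pool.Agent.X199.Dsc X), inferInstance, hT1, hDL, inferInstance,
    inferInstance, ?_⟩
  by_contra hcon
  push Not at hcon
  have hL : LindelofSpace X := Pool.Agent.X199.lindelof_of_prod hcon
  obtain ⟨t, ht, hKt⟩ := hL.isLindelof_univ.elim_countable_subcover (fun U : 𝒰 => U.1)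
    (fun U => hUo U.1 U.2) (by
      intro x _
      have : x ∈ ⋃₀ 𝒰 := hUc ▸ mem_univ x
      obtain ⟨U, hU', hx⟩ := this
      exact mem_iUnion.2 ⟨⟨U, hU'⟩, hx⟩)
  refine hUd (Subtype.val '' t) ?_ (ht.image _) ?_
  · rintro _ ⟨U, _, rfl⟩
    exact U.2
  · have h2 : ⋃₀ (Subtype.val '' t) = (univ : Set X) := by
      refine eq_univ_of_forall fun x => ?_
      obtain ⟨U, hUt, hxU⟩ := mem_iUnion₂.1 (hKt (mem_univ x))
      exact ⟨U.1, ⟨U, hUt, rfl⟩, hxU⟩
    rw [h2]
    exact dense_univ

end Pool.Agent.Results.MP_0abb29_gt.ProductNotDiscretelyLindelof
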